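import Pool.Agent.helper14.NS.Cert

/-!
Generated: table Q30b.
-/

namespace Pool.Agent.helper14.NS.Q30b

open Pool.Agent.helper63.NF Pool.Agent.helper4.NS

def tab : TD where
  strip := false
  bm := none
  ec := 30601641984
  bc := 412316860416
  H := [[[-24125865408, 9624532800, 4271093440, -8750617536], [-1419229580992, 179623782912], [5382951823680]], [[2528418496, 662422720, -1546323968], [123260159040, -266443290304]], [[171876480, -299233088, 794135232], [2715961216]], [[-133816256, 38274816], [-4504098944]], [[22286784, 1418432]], [[-1976448]], [[3968]]]
  pol := some ⟨-837787058176, -15049565405184, 5872294035456, 31362867265536, [[36192108672, -129312381952], [2246805533952, 0]], [[835787530176, 235359208704], [43476120261376, 0]]⟩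
  a := [[[160198295552, 102521241600, -492015124480, 281101729792], [-3433878585344, -12099987636224]], [[101012078592, 15522004992, -184824954880, 308935262208], [-626845155328, -1492131119104]], [[91674574848, 6459359232, -160438091776, 192802127872], [-318536548352, -1170569297920]], [[84665892864, 2441740288, -120581128192, -28017754112], [-109768867840, -617228730368]], [[79519940608, 832831488, -76696846336, -55314939904], [-22547857408, -17881628672]], [[74109222912, -874905600, -29928259584, -19671482368], [30106451968, 466804342784]]]
  j := [-27762668601344, -3848290697216, -274877906944, 2611340115968, 5085241278464, 6734508720128]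
  c := [879662989312, 989453090816, 769604452352, 549755813888, 439697276928, 329907175424]
  M := [[[[1095887290368, -7628521472, 32993116160], [-216345542656, 1364689420288], [9855561629696]], [[79372288000, 40840396800], [3838261067776]], [[-15271657472, -64469204992], [2784601309184]], [[359259635712]], [[-523365580800]], [[336075161600]]], [[[1094084984832, 3744661504, 5075632128], [247549132800]], [[19485949952, 712376320], [558092910592]], [[-1170931712]], [[138936320]]], [[[1095317127168, 1493499904, 645070848], [263131103232]], [[18641453056, 652673024], [561164058624]], [[-958595072]], [[111476736]]], [[[1096536293376, 933101568, -6587351040], [355598008320]], [[17668374528, 813236224], [553146318848]], [[-708575232]], [[76349440]]], [[[1097500524544, 2285109248, -5694881792], [336545120256]], [[17121804288, 560922624], [541549985792]], [[-543817728]], [[53805056]]], [[[1098293706752, 2980970496, -5752815616], [372208893952]], [[16772825088, 329449472], [516857724928]], [[-410976256]], [[39649280]]]]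
  l0 := [[[3469016142336, 26714932416], [709072647936]], [[1434112984512, -1539091520], [-14102189551744]], [[421006414272, -154144030016], [-3017358668608]], [[493416490432, -403277719360], [-59384124690560]], [[-1694499794944, 612549515328], [72169160568512]], [[8673787490368, -1223782192384], [-91242155979136]], [[-21044373643456]], [[49201605672576]], [[-73989564400576]], [[98447203413440]], [[-71267133838336]], [[43684992772352]]]
  q0 := [[45535972160, 122304938432, 15774883904], [1639254029760, 4905922480128], [4157362016384]]
  t := [[[1517272694784, 1121338261504, 293306892288, -676551131136], [-320915701760, 396884836352]], [[740879237120, -30324686848, -388178182144, 2153889267712], [823922589696, 2616687263744]], [[682222354432, -113120378880, -252259336192, 792346230784], [1351001833472, 724177256448]], [[651949834240, -135601324032, -168802516992, -302545502208], [1908518158336, 2156580438016]], [[610953723904, -168130772992, 215935680512, 272070672384], [1794877554688, 5522408996864]], [[579438051328, -128452395008, 483346481152, -1433418072064], [2044452470784, 10430777065472]]]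
  y := [7179037835264, 8161511604224, 9152575307776, 10171556298752, 11187316064256, 12165494865920]
  sc := [0, 0, 0, 0, 0, 0]
  L := [(0, 2), (0, 3), (1, 1), (2, 0)]
  Lt := [(0, 2), (0, 3), (1, 1)]
  far := 3
  x2 := 10775214161920
  B1 := 1099511627776
  C2 := 1436096814080
  f1 := 0
  f2 := 0
  f3 := 0
  is1 := 8796093022208
  s1 := 137438953472

end Pool.Agent.helper14.NS.Q30b
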